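import Mathlib

/-!
# A curve that meets every nonzero functional, without seeds

Binary merging of blocks with the substitution `t ^ w`, `t ^ w + t ^ (w - 1)` of Gurjar, Korwar and
Saxena, where `w` is only the dimension of the space of products of the left block.
-/

set_option autoImplicit false

open Finset

namespace Pool.Agent.Lib.MP_64d474_lc.GK90

/-- The `i`-th of `2 ^ k` natural number functions. -/
def par (w : ℕ → ℕ) : ℕ → ℕ → ℕ → ℕ
  | 0, _, z => z
  | k + 1, i, z =>
    if i < 2 ^ k then par w k i (z ^ w k) else par w k (i - 2 ^ k) (z ^ w k + z ^ (w k - 1))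

/-- The coefficient of `X ^ N` in `X ^ (w * i) * (X ^ w + X ^ (w - 1)) ^ l`. -/
def kap (w i l N : ℕ) : ℕ :=
  if w * i + (w - 1) * l ≤ N then l.choose (N - (w * i + (w - 1) * l)) else 0

theorem sparse {K : Type*} [Field K] [CharZero K] (J : Finset ℕ) :
    ∀ c : ℕ → K, (∀ l < J.card, ∑ j ∈ J, c j * (j.choose l : K) = 0) → ∀ j ∈ J, c j = 0 := by
  classical
  induction J using Finset.induction_on with
  | empty => simp
  | insert j0 J hj0 ih =>
    intro c hc
    have key : ∀ j l : ℕ, ((j : K) - j0) * (j.choose l : K) =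
        (l + 1) * (j.choose (l + 1) : K) + ((l : K) - j0) * (j.choose l : K) := by
      intro j l
      rcases le_or_gt l j with h | h
      · have h1 := Nat.choose_succ_right_eq j l
        have h2 : ((j.choose (l + 1) : ℕ) : K) * ((l : K) + 1) = (j.choose l : K) * ((j : K) - l) := by
          have h3 := congrArg (fun t : ℕ => (t : K)) h1
          simp only [Nat.cast_mul, Nat.cast_add, Nat.cast_one, Nat.cast_sub h] at h3
          exact h3
        linear_combination -h2
      · rw [Nat.choose_eq_zero_of_lt h, Nat.choose_eq_zero_of_lt (by omega)]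
        simp
    have h1 : ∀ j ∈ J, ((j : K) - j0) * c j = 0 := by
      apply ih (fun j => ((j : K) - j0) * c j)
      intro l hl
      have hl1 := hc (l + 1) (by rw [card_insert_of_notMem hj0]; omega)
      have hl0 := hc l (by rw [card_insert_of_notMem hj0]; omega)
      rw [sum_insert hj0] at hl1 hl0
      have h2 : ∑ j ∈ J, ((j : K) - j0) * c j * (j.choose l : K) =
          (l + 1) * ∑ j ∈ J, c j * (j.choose (l + 1) : K) +
            ((l : K) - j0) * ∑ j ∈ J, c j * (j.choose l : K) := by
        rw [mul_sum, mul_sum, ← sum_add_distrib]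
        refine sum_congr rfl fun j _ => ?_
        linear_combination (c j) * key j l
      have h3 := key j0 l
      rw [h2]
      linear_combination ((l : K) + 1) * hl1 + ((l : K) - j0) * hl0 + (c j0) * h3
    have h4 : ∀ j ∈ J, c j = 0 := by
      intro j hj
      have h5 := h1 j hj
      rcases mul_eq_zero.1 h5 with h6 | h6
      · exfalso
        have h7 : (j : K) = j0 := sub_eq_zero.1 h6
        have h8 : j = j0 := by exact_mod_cast h7
        exact hj0 (h8 ▸ hj)
      · exact h6
    intro j hj
    rcases mem_insert.1 hj with rfl | hj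
    · have h9 := hc 0 (by rw [card_insert_of_notMem hj0]; omega)
      rw [sum_insert hj0, sum_eq_zero (fun i hi => by rw [h4 i hi, zero_mul])] at h9
      simpa using h9
    · exact h4 j hj

theorem kap_eval (w i l z M : ℕ) (hw : 1 ≤ w) (hM : w * (i + l) ≤ M) :
    ∑ N ∈ range (M + 1), kap w i l N * z ^ N = (z ^ w) ^ i * (z ^ w + z ^ (w - 1)) ^ l := by
  classical
  obtain ⟨v, rfl⟩ : ∃ v, w = v + 1 := ⟨w - 1, by omega⟩
  have e1 : z ^ (v + 1) + z ^ (v + 1 - 1) = z ^ v * (z + 1) := by
    rw [Nat.add_sub_cancel]; ring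
  rw [e1, mul_pow, add_pow]
  simp only [one_pow, mul_one, Nat.cast_id]
  have e2 : ((z ^ (v + 1)) ^ i * ((z ^ v) ^ l *
      ∑ b ∈ range (l + 1), z ^ b * l.choose b)) =
      ∑ b ∈ range (l + 1), (fun N => kap (v + 1) i l N * z ^ N) ((v + 1) * i + v * l + b) := by
    rw [mul_sum, mul_sum]
    refine sum_congr rfl fun b _ => ?_
    have e3 : kap (v + 1) i l ((v + 1) * i + v * l + b) = l.choose b := by
      simp only [kap, Nat.add_sub_cancel]
      rw [if_pos (by omega)]
      congr 1
      omega
    simp only [e3]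
    rw [← pow_mul, ← pow_mul, pow_add, pow_add]
    ring
  have e4 : ∑ b ∈ range (l + 1), (fun N => kap (v + 1) i l N * z ^ N) ((v + 1) * i + v * l + b) =
      ∑ N ∈ (range (l + 1)).map (addLeftEmbedding ((v + 1) * i + v * l)),
        kap (v + 1) i l N * z ^ N := by
    rw [sum_map]
    rfl
  rw [e2, e4]
  symm
  apply sum_subset
  · intro N hN
    simp only [mem_map, mem_range, addLeftEmbedding_apply] at hN ⊢
    obtain ⟨b, hb, rfl⟩ := hN
    have : (v + 1) * (i + l) = (v + 1) * i + v * l + l := by ring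
    omega
  · intro N _ hN
    simp only [mem_map, mem_range, addLeftEmbedding_apply, not_exists, not_and] at hN
    have : kap (v + 1) i l N = 0 := by
      simp only [kap, Nat.add_sub_cancel]
      split_ifs with h
      · apply Nat.choose_eq_zero_of_lt
        by_contra h1
        exact hN (N - ((v + 1) * i + v * l)) (by omega) (by omega)
      · rfl
    rw [this, zero_mul]

theorem kap_zero (w i l N : ℕ) (hw : 1 ≤ w) (h : w * (i + l) < N) : kap w i l N = 0 := by
  obtain ⟨v, rfl⟩ : ∃ v, w = v + 1 := ⟨w - 1, by omega⟩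
  have : (v + 1) * (i + l) = (v + 1) * i + v * l + l := by ring
  simp only [kap, Nat.add_sub_cancel]
  split_ifs with h1
  · apply Nat.choose_eq_zero_of_lt
    omega
  · rfl

open Classical in
/-- The coefficient that survives, for a matrix whose last antidiagonal has at most `w` nonzero
entries. -/
theorem core {K : Type*} [Field K] [CharZero K] (w : ℕ) (c : ℕ → ℕ → K)
    (hw : ∀ d, (∀ i l, d < i + l → c i l = 0) →
      ((range (d + 1)).filter (fun l => c (d - l) l ≠ 0)).card ≤ w)
    (B : ℕ) (hB : ∀ i l, c i l ≠ 0 → i + l ≤ B) (h : ∃ i l, c i l ≠ 0) :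
    ∃ N, ∑ i ∈ range (B + 1), ∑ l ∈ range (B + 1), (kap w i l N : K) * c i l ≠ 0 := by
  set S : ℕ → Prop := fun s => ∃ i l, i + l = s ∧ c i l ≠ 0 with hS
  have hex : ∃ s, s ≤ B ∧ S s := by
    obtain ⟨i, l, hil⟩ := h
    exact ⟨i + l, hB i l hil, i, l, rfl, hil⟩
  obtain ⟨s0, hs0B, hs0⟩ := hex
  set d := Nat.findGreatest S B with hd
  have hdS : S d := Nat.findGreatest_spec hs0B hs0
  have hdB : d ≤ B := Nat.findGreatest_le B
  have hmax : ∀ i l, d < i + l → c i l = 0 := by
    intro i l hil
    by_contra hne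
    have h1 : i + l ≤ B := hB i l hne
    exact Nat.findGreatest_is_greatest hil h1 ⟨i, l, rfl, hne⟩
  have hcard := hw d hmax
  set J := (range (d + 1)).filter (fun l => c (d - l) l ≠ 0) with hJ
  have hJd : ∀ l ∈ J, l ≤ d ∧ c (d - l) l ≠ 0 := by
    intro l hl
    rw [hJ, mem_filter, mem_range] at hl
    exact ⟨by omega, hl.2⟩
  have hJne : J.Nonempty := by
    obtain ⟨i, l, hil, hne⟩ := hdS
    refine ⟨l, ?_⟩
    rw [hJ, mem_filter, mem_range]
    refine ⟨by omega, ?_⟩
    rwa [show d - l = i by omega]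
  have hJpos : 0 < J.card := hJne.card_pos
  obtain ⟨l0, hl0, hsum⟩ : ∃ l0 < J.card, ∑ l ∈ J, c (d - l) l * (l.choose l0 : K) ≠ 0 := by
    by_contra hcon
    push Not at hcon
    obtain ⟨l, hl⟩ := hJne
    exact (hJd l hl).2 (sparse J (fun l => c (d - l) l) hcon l hl)
  have hl0d : l0 ≤ d := by
    obtain ⟨l, hl, hne⟩ := exists_ne_zero_of_sum_ne_zero hsum
    by_contra hlt
    apply hne
    rw [Nat.choose_eq_zero_of_lt (by have := (hJd l hl).1; omega)]
    simp
  obtain ⟨v, rfl⟩ : ∃ v, w = v + 1 := ⟨w - 1, by omega⟩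
  have hdw : l0 ≤ (v + 1) * d := by nlinarith
  refine ⟨(v + 1) * d - l0, ?_⟩
  have hterm : ∀ i l, (kap (v + 1) i l ((v + 1) * d - l0) : K) * c i l =
      if i + l = d then (l.choose l0 : K) * c i l else 0 := by
    intro i l
    have e0 : (v + 1) * i + v * l + l = (v + 1) * (i + l) := by ring
    split_ifs with hid
    · congr 1
      rw [hid] at e0
      simp only [kap, Nat.add_sub_cancel]
      split_ifs with h1
      · rw [show (v + 1) * d - l0 - ((v + 1) * i + v * l) = l - l0 by omega,
          Nat.choose_symm (by omega)]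
      · rw [Nat.choose_eq_zero_of_lt (show l < l0 by omega)]
    · rcases lt_or_gt_of_ne hid with hlt | hgt
      · have h2 : kap (v + 1) i l ((v + 1) * d - l0) = 0 := by
          have h3 : (v + 1) * (i + l) + (v + 1) ≤ (v + 1) * d := by
            rw [← Nat.mul_succ]; exact Nat.mul_le_mul_left _ hlt
          simp only [kap, Nat.add_sub_cancel]
          split_ifs with h1
          · apply Nat.choose_eq_zero_of_lt
            omega
          · rfl
        rw [h2]; simp
      · rw [hmax i l hgt, mul_zero]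
  have hfin : ∑ i ∈ range (B + 1), ∑ l ∈ range (B + 1),
      (kap (v + 1) i l ((v + 1) * d - l0) : K) * c i l =
      ∑ l ∈ J, c (d - l) l * (l.choose l0 : K) := by
    rw [sum_comm]
    have e1 : ∀ l ∈ range (B + 1), ∑ i ∈ range (B + 1),
        (kap (v + 1) i l ((v + 1) * d - l0) : K) * c i l =
        if l ∈ J then c (d - l) l * (l.choose l0 : K) else 0 := by
      intro l _
      rcases le_or_gt l d with hld | hld
      · rw [sum_eq_single_of_mem (d - l) (by rw [mem_range]; omega)]
        · rw [hterm, if_pos (by omega)]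
          split_ifs with hlJ
          · rw [mul_comm]
          · have : c (d - l) l = 0 := by
              by_contra h1
              exact hlJ (by rw [hJ, mem_filter, mem_range]; exact ⟨by omega, h1⟩)
            rw [this, mul_zero]
        · intro i _ hi
          rw [hterm, if_neg (by omega)]
      · rw [if_neg (fun hl => by have := (hJd l hl).1; omega)]
        refine sum_eq_zero fun i _ => ?_
        rw [hterm, if_neg (by omega)]
    rw [sum_congr rfl e1, sum_ite_mem]
    congr 1
    apply inter_eq_right.2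
    intro l hl
    rw [mem_range]
    have := (hJd l hl).1
    omega
  rw [hfin]
  exact hsum

open Classical in
/-- Left vectors. -/
theorem card_left {K V : Type*} [Field K] [AddCommGroup V] [Module K V]
    (P : Submodule K V) [Module.Finite K P] (φ : ℕ → V) (hφ : ∀ i, φ i ∈ P) (μ : ℕ → V →ₗ[K] K)
    (d : ℕ) (hmax : ∀ i l, d < i + l → μ l (φ i) = 0) :
    ((range (d + 1)).filter (fun l => μ l (φ (d - l)) ≠ 0)).card ≤ Module.finrank K P := by
  set J := (range (d + 1)).filter (fun l => μ l (φ (d - l)) ≠ 0) with hJ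
  have hJd : ∀ l ∈ J, l ≤ d ∧ μ l (φ (d - l)) ≠ 0 := by
    intro l hl
    rw [hJ, mem_filter, mem_range] at hl
    exact ⟨by omega, hl.2⟩
  have hli : LinearIndependent K (fun l : J => (⟨φ (d - (l : ℕ)), hφ _⟩ : P)) := by
    rw [linearIndependent_iff']
    intro s g hg
    by_contra hcon
    push Not at hcon
    obtain ⟨l1, hl1, hgl1⟩ := hcon
    have hne : (s.filter (fun l => g l ≠ 0)).Nonempty := ⟨l1, by simp [hl1, hgl1]⟩
    obtain ⟨l2, hl2, hl2max⟩ := exists_max_image (s.filter (fun l => g l ≠ 0))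
      (fun l : J => (l : ℕ)) hne
    rw [mem_filter] at hl2
    have h1 := congrArg (fun p : P => μ (l2 : ℕ) (p : V)) hg
    simp only [Submodule.coe_zero, map_zero, Submodule.coe_sum, Submodule.coe_smul, map_sum,
      map_smul, smul_eq_mul] at h1
    rw [sum_eq_single_of_mem l2 hl2.1] at h1
    · rcases mul_eq_zero.1 h1 with h2 | h2
      · exact hl2.2 h2
      · exact (hJd l2 l2.2).2 h2
    · intro l hl hne'
      rcases lt_trichotomy (l : ℕ) (l2 : ℕ) with hlt | heq | hgt
      · have h3 := (hJd l l.2).1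
        rw [hmax (d - (l : ℕ)) (l2 : ℕ) (by omega), mul_zero]
      · exact absurd (Subtype.ext heq) hne'
      · have h4 : g l = 0 := by
          by_contra h5
          have h6 := hl2max l (by rw [mem_filter]; exact ⟨hl, h5⟩)
          omega
        rw [h4, zero_mul]
  have h1 := hli.fintype_card_le_finrank
  rwa [Fintype.card_coe] at h1

open Classical in
/-- Right vectors. -/
theorem card_right {K V : Type*} [Field K] [AddCommGroup V] [Module K V]
    (P : Submodule K V) [Module.Finite K P] (ψ : ℕ → V) (hψ : ∀ l, ψ l ∈ P) (μ : ℕ → V →ₗ[K] K)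
    (d : ℕ) (hmax : ∀ i l, d < i + l → μ i (ψ l) = 0) :
    ((range (d + 1)).filter (fun l => μ (d - l) (ψ l) ≠ 0)).card ≤ Module.finrank K P := by
  set J := (range (d + 1)).filter (fun l => μ (d - l) (ψ l) ≠ 0) with hJ
  have hJd : ∀ l ∈ J, l ≤ d ∧ μ (d - l) (ψ l) ≠ 0 := by
    intro l hl
    rw [hJ, mem_filter, mem_range] at hl
    exact ⟨by omega, hl.2⟩
  have hli : LinearIndependent K (fun l : J => (⟨ψ (l : ℕ), hψ _⟩ : P)) := by
    rw [linearIndependent_iff']
    intro s g hg
    by_contra hcon
    push Not at hcon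
    obtain ⟨l1, hl1, hgl1⟩ := hcon
    have hne : (s.filter (fun l => g l ≠ 0)).Nonempty := ⟨l1, by simp [hl1, hgl1]⟩
    obtain ⟨l2, hl2, hl2min⟩ := exists_min_image (s.filter (fun l => g l ≠ 0))
      (fun l : J => (l : ℕ)) hne
    rw [mem_filter] at hl2
    have h1 := congrArg (fun p : P => μ (d - (l2 : ℕ)) (p : V)) hg
    simp only [Submodule.coe_zero, map_zero, Submodule.coe_sum, Submodule.coe_smul, map_sum,
      map_smul, smul_eq_mul] at h1
    rw [sum_eq_single_of_mem l2 hl2.1] at h1
    · rcases mul_eq_zero.1 h1 with h2 | h2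
      · exact hl2.2 h2
      · exact (hJd l2 l2.2).2 h2
    · intro l hl hne'
      rcases lt_trichotomy (l : ℕ) (l2 : ℕ) with hlt | heq | hgt
      · have h4 : g l = 0 := by
          by_contra h5
          have h6 := hl2min l (by rw [mem_filter]; exact ⟨hl, h5⟩)
          omega
        rw [h4, zero_mul]
      · exact absurd (Subtype.ext heq) hne'
      · have h3 := (hJd l2 l2.2).1
        rw [hmax (d - (l2 : ℕ)) (l : ℕ) (by omega), mul_zero]
  have h1 := hli.fintype_card_le_finrank
  rwa [Fintype.card_coe] at h1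

open Polynomial in
theorem coeff_kap {K : Type*} [Field K] (w i l N : ℕ) (hw : 1 ≤ w) :
    ((X : K[X]) ^ (w * i) * (X ^ w + X ^ (w - 1)) ^ l).coeff N = (kap w i l N : K) := by
  obtain ⟨v, rfl⟩ : ∃ v, w = v + 1 := ⟨w - 1, by omega⟩
  have e1 : (X : K[X]) ^ (v + 1) + X ^ (v + 1 - 1) = X ^ v * (X + 1) := by
    rw [Nat.add_sub_cancel]; ring
  rw [e1, mul_pow, ← mul_assoc, ← pow_mul, ← pow_add, coeff_X_pow_mul']
  simp only [kap, Nat.add_sub_cancel]
  split_ifs with h
  · rw [coeff_X_add_one_pow]
  · simp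

open Classical Polynomial in
theorem gks {K : Type*} [Field K] [CharZero K] (L : Submodule K K[X]) [Module.Finite K L] (w : ℕ)
    (hw : 1 ≤ w) (hL : Module.finrank K L ≤ w) (g : K[X][X]) (hg : ∀ j, g.coeff j ∈ L)
    (h0 : g ≠ 0) :
    g.eval₂ (Polynomial.expand K w : K[X] →ₐ[K] K[X]).toRingHom (X ^ w + X ^ (w - 1)) ≠ 0 := by
  set c : ℕ → ℕ → K := fun i l => (g.coeff l).coeff i with hc
  -- a bound
  obtain ⟨B0, hB0⟩ : ∃ B0, ∀ l, (g.coeff l).natDegree ≤ B0 := by
    refine ⟨∑ l ∈ g.support, (g.coeff l).natDegree, fun l => ?_⟩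
    by_cases hl : l ∈ g.support
    · exact single_le_sum (f := fun l => (g.coeff l).natDegree) (fun _ _ => Nat.zero_le _) hl
    · rw [notMem_support_iff.1 hl]; simp
  set B := B0 + g.natDegree with hBdef
  have hcz : ∀ i l, c i l ≠ 0 → i ≤ B0 ∧ l ≤ g.natDegree := by
    intro i l hil
    constructor
    · by_contra hlt
      exact hil (coeff_eq_zero_of_natDegree_lt (lt_of_le_of_lt (hB0 l) (by omega)))
    · by_contra hlt
      apply hil
      simp only [hc]
      rw [coeff_eq_zero_of_natDegree_lt (p := g) (by omega), coeff_zero]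
  have hB : ∀ i l, c i l ≠ 0 → i + l ≤ B := by
    intro i l hil
    have := hcz i l hil
    omega
  have hne : ∃ i l, c i l ≠ 0 := by
    by_contra hcon
    push Not at hcon
    apply h0
    ext l i
    exact hcon i l
  have hcd : ∀ d, (∀ i l, d < i + l → c i l = 0) →
      ((range (d + 1)).filter (fun l => c (d - l) l ≠ 0)).card ≤ w := by
    intro d hd
    exact (card_right L (fun l => g.coeff l) hg (fun i => lcoeff K i) d hd).trans hL
  obtain ⟨N, hN⟩ := core w c hcd B hB hne
  intro hzero
  apply hN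
  have h1 := congrArg (fun p : K[X] => p.coeff N) hzero
  simp only [coeff_zero] at h1
  rw [← h1, eval₂_eq_sum_range' _ (lt_of_le_of_lt (Nat.le_add_left g.natDegree B0) (Nat.lt_succ_self _))]
  rw [finsetSum_coeff, sum_comm]
  refine sum_congr rfl fun l _ => ?_
  have h2 : (Polynomial.expand K w : K[X] →ₐ[K] K[X]).toRingHom (g.coeff l) =
      ∑ i ∈ range (B + 1), C ((g.coeff l).coeff i) * X ^ (w * i) := by
    have h3 := as_sum_range' (g.coeff l) (B + 1) (lt_of_le_of_lt (hB0 l) (by omega))
    conv_lhs => rw [h3]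
    simp only [map_sum, ← C_mul_X_pow_eq_monomial]
    refine sum_congr rfl fun i _ => ?_
    simp [pow_mul]
  rw [h2, sum_mul, finsetSum_coeff]
  refine sum_congr rfl fun i _ => ?_
  rw [mul_assoc, coeff_C_mul, coeff_kap w i l N hw]
  simp only [hc]
  ring

end Pool.Agent.Lib.MP_64d474_lc.GK90
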